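import Pool.Agent.Lib.MP_102345_an.Main

set_option autoImplicit false

namespace Pool.Agent.Results.MP_102345_an.Counterexample

open Filter Topology

section defs
variable {X Y : Type} [NormedAddCommGroup X] [NormedSpace ℝ X] [NormedAddCommGroup Y]

/-- The modulus of asymptotic uniform smoothness of a norm `N` on `X`. -/
noncomputable def modulus (N : X → ℝ) (t : ℝ) : ℝ :=
  ⨆ x : {x : X // N x = 1},
    ⨅ E : {E : Submodule ℝ X // IsClosed (E : Set X) ∧ FiniteDimensional ℝ (X ⧸ E)},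
      ⨆ y : {y : X // y ∈ E.1 ∧ N y ≤ 1}, (N (x.1 + t • y.1) - 1)

/-- `N` is asymptotically uniformly smooth: the modulus is `o(t)` as `t` decreases to `0`. -/
def IsAUS (N : X → ℝ) : Prop := Tendsto (fun t => modulus N t / t) (𝓝[>] 0) (𝓝 0)

/-- `X` has an equivalent norm that is asymptotically uniformly smooth. -/
def AUSable (X : Type) [NormedAddCommGroup X] [NormedSpace ℝ X] : Prop :=
  ∃ N : Seminorm ℝ X, (∃ c C : ℝ, 0 < c ∧ ∀ x, c * ‖x‖ ≤ N x ∧ N x ≤ C * ‖x‖) ∧ IsAUS N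

/-- Coarse Lipschitz embedding. -/
def IsCoarseLipschitzEmbedding (f : X → Y) : Prop :=
  ∃ A B θ : ℝ, 0 < A ∧ 0 < B ∧ 0 ≤ θ ∧ ∀ x x', θ ≤ ‖x - x'‖ →
    A * ‖x - x'‖ ≤ ‖f x - f x'‖ ∧ ‖f x - f x'‖ ≤ B * ‖x - x'‖

end defs

section aux
variable {X : Type} [NormedAddCommGroup X] [NormedSpace ℝ X]

lemma inner_le (N : Seminorm ℝ X) {t : ℝ} (ht : 0 < t) {x : X} (hx : N x = 1) (E : Submodule ℝ X)
    (y : {y : X // y ∈ E ∧ N y ≤ 1}) : N (x + t • y.1) - 1 ≤ t := by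
  have h1 := map_add_le_add N x (t • y.1)
  rw [map_smul_eq_mul, Real.norm_eq_abs, abs_of_pos ht, hx] at h1
  nlinarith [y.2.2]

lemma inner_bdd (N : Seminorm ℝ X) {t : ℝ} (ht : 0 < t) {x : X} (hx : N x = 1)
    (E : Submodule ℝ X) :
    BddAbove (Set.range fun y : {y : X // y ∈ E ∧ N y ≤ 1} => N (x + t • y.1) - 1) :=
  ⟨t, by rintro _ ⟨y, rfl⟩; exact inner_le N ht hx E y⟩

lemma inner_nonneg (N : Seminorm ℝ X) {t : ℝ} (ht : 0 < t) {x : X} (hx : N x = 1)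
    (E : Submodule ℝ X) : 0 ≤ ⨆ y : {y : X // y ∈ E ∧ N y ≤ 1}, (N (x + t • y.1) - 1) := by
  refine le_trans ?_ (le_ciSup (inner_bdd N ht hx E) ⟨0, E.zero_mem, by simp⟩)
  simp [hx]

lemma inf_le (N : Seminorm ℝ X) {t : ℝ} (ht : 0 < t) {x : X} (hx : N x = 1)
    (E0 : {E : Submodule ℝ X // IsClosed (E : Set X) ∧ FiniteDimensional ℝ (X ⧸ E)}) :
    (⨅ E : {E : Submodule ℝ X // IsClosed (E : Set X) ∧ FiniteDimensional ℝ (X ⧸ E)},
      ⨆ y : {y : X // y ∈ E.1 ∧ N y ≤ 1}, (N (x + t • y.1) - 1))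
      ≤ ⨆ y : {y : X // y ∈ E0.1 ∧ N y ≤ 1}, (N (x + t • y.1) - 1) :=
  ciInf_le ⟨0, by rintro _ ⟨E, rfl⟩; exact inner_nonneg N ht hx E.1⟩ E0

lemma isAUS_iff (N : Seminorm ℝ X) : IsAUS N ↔
    ∀ ε : ℝ, 0 < ε → ∃ δ : ℝ, 0 < δ ∧ ∀ t : ℝ, 0 < t → t < δ → ∀ x : X, N x = 1 →
      ∃ E : Submodule ℝ X, IsClosed (E : Set X) ∧ FiniteDimensional ℝ (X ⧸ E) ∧
        ∀ y ∈ E, N y ≤ t → N (x + y) ≤ 1 + ε * t := by
  have htop : IsClosed ((⊤ : Submodule ℝ X) : Set X) ∧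
      FiniteDimensional ℝ (X ⧸ (⊤ : Submodule ℝ X)) := ⟨by simp, inferInstance⟩
  have : Nonempty {E : Submodule ℝ X // IsClosed (E : Set X) ∧ FiniteDimensional ℝ (X ⧸ E)} :=
    ⟨⟨⊤, htop⟩⟩
  unfold IsAUS
  rw [Metric.tendsto_nhdsWithin_nhds]
  constructor
  · intro h ε hε
    obtain ⟨δ, hδ, h2⟩ := h ε hε
    refine ⟨δ, hδ, fun t ht htδ x hx => ?_⟩
    have h3 := h2 (show t ∈ Set.Ioi 0 from ht) (by simpa [abs_of_pos ht] using htδ)
    rw [Real.dist_eq, sub_zero] at h3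
    have h4 : modulus N t < ε * t := by
      rw [← div_lt_iff₀ ht]
      exact (le_abs_self _).trans_lt h3
    have h5 := le_ciSup (f := fun x : {x : X // N x = 1} =>
      ⨅ E : {E : Submodule ℝ X // IsClosed (E : Set X) ∧ FiniteDimensional ℝ (X ⧸ E)},
        ⨆ y : {y : X // y ∈ E.1 ∧ N y ≤ 1}, (N (x.1 + t • y.1) - 1))
      ⟨t, by
        rintro _ ⟨x, rfl⟩
        exact (inf_le N ht x.2 ⟨⊤, htop⟩).trans
          (Real.iSup_le (fun y => inner_le N ht x.2 _ y) ht.le)⟩ ⟨x, hx⟩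
    obtain ⟨E, hE⟩ := exists_lt_of_ciInf_lt (h5.trans_lt h4)
    refine ⟨E.1, E.2.1, E.2.2, fun y hy hyt => ?_⟩
    have h6 := le_ciSup (inner_bdd N ht hx E.1) ⟨t⁻¹ • y, E.1.smul_mem _ hy, by
      rw [map_smul_eq_mul, Real.norm_eq_abs, abs_of_pos (inv_pos.2 ht), inv_mul_le_iff₀ ht]
      simpa using hyt⟩
    simp only [smul_inv_smul₀ ht.ne'] at h6
    linarith
  · intro h ε hε
    obtain ⟨δ, hδ, h2⟩ := h (ε / 2) (half_pos hε)
    refine ⟨δ, hδ, fun t ht htδ => ?_⟩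
    have ht0 : 0 < t := ht
    have htδ' : t < δ := by simpa [abs_of_pos ht0] using htδ
    have h3 : 0 ≤ modulus N t :=
      Real.iSup_nonneg fun x => Real.iInf_nonneg fun E => inner_nonneg N ht0 x.2 E.1
    have h4 : modulus N t ≤ ε / 2 * t := by
      refine Real.iSup_le (fun x => ?_) (by positivity)
      obtain ⟨E, hE1, hE2, hE3⟩ := h2 t ht0 htδ' x.1 x.2
      refine (inf_le N ht0 x.2 ⟨E, hE1, hE2⟩).trans (Real.iSup_le (fun y => ?_) (by positivity))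
      have := hE3 (t • y.1) (E.smul_mem _ y.2.1) (by
        rw [map_smul_eq_mul, Real.norm_eq_abs, abs_of_pos ht0]
        nlinarith [y.2.2])
      linarith
    rw [Real.dist_eq, sub_zero, abs_of_nonneg (div_nonneg h3 ht0.le), div_lt_iff₀ ht0]
    nlinarith

end aux

open Pool.Agent.Lib.MP_102345_an in
theorem result :
    ∃ (X : Type) (_ : NormedAddCommGroup X) (_ : NormedSpace ℝ X) (_ : CompleteSpace X)
      (Y : Type) (_ : NormedAddCommGroup Y) (_ : NormedSpace ℝ Y) (_ : CompleteSpace Y),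
      ¬ FiniteDimensional ℝ X ∧ ¬ FiniteDimensional ℝ Y ∧
      Function.Surjective (NormedSpace.inclusionInDoubleDual ℝ Y) ∧
      IsAUS (fun y : Y => ‖y‖) ∧
      (∃ f : X → Y, IsCoarseLipschitzEmbedding f) ∧
      ¬ AUSable X := by
  obtain ⟨Y, f, hf⟩ := exists_emb
  refine ⟨X, inferInstance, inferInstance, inferInstance, Y.C, inferInstance, inferInstance,
    inferInstance, not_finite_X, not_finite_of_emb f (by norm_num) (by norm_num) hf, Y.refl,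
    (isAUS_iff (normSeminorm ℝ Y.C)).2 Y.aus,
    ⟨f, 1 / 2016, 1009, 2016 * 540, by norm_num, by norm_num, by norm_num, fun x x' h => ?_⟩, ?_⟩
  · obtain ⟨h1, h2⟩ := hf x x'
    constructor <;> linarith
  · rintro ⟨N, ⟨c, C, hc, hb⟩, hN⟩
    exact not_aus N (map_add_le_add N) (fun r x => map_smul_eq_mul N r x) c C hc hb
      ((isAUS_iff N).1 hN)

end Pool.Agent.Results.MP_102345_an.Counterexample
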